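import Pool.Agent.Y206.Q.Stm
import Pool.Agent.Helper947.Geo.B10

/-!
# Project QG: Bezout for a reduced complete intersection of points in the plane
-/

set_option autoImplicit false
open MvPolynomial
open Pool.Agent.Helper947.Geo

namespace Pool.Agent.Y328.QG

theorem two_choose (n : ℕ) : 2 * (2 + n).choose 2 = (n + 2) * (n + 1) := by
  induction n with
  | zero => rfl
  | succ n ih =>
    have h : (2 + (n + 1)).choose 2 = (2 + n).choose 1 + (2 + n).choose 2 := by
      rw [show 2 + (n + 1) = (2 + n) + 1 by ring]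
      exact Nat.choose_succ_succ' (2 + n) 1
    rw [h, Nat.choose_one_right, mul_add, ih]
    ring

theorem eval_zero_hom {n a : ℕ} (F : MvPolynomial (Fin n) ℂ) (hF : F.IsHomogeneous a)
    (ha : a ≠ 0) : eval 0 F = 0 := by
  rw [eval_zero, constantCoeff_eq]
  apply hF.coeff_eq_zero
  intro h
  apply ha
  rw [← h]
  simp

theorem finrank_gr (I : Ideal (MvPolynomial (Fin 3) ℂ)) (j : ℕ) :
    Module.finrank ℂ ↥(homogeneousSubmodule (Fin 3) ℂ j ⊓ I.restrictScalars ℂ) =
      Module.finrank ℂ (H503R3.QCI.gr I j) := by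
  unfold H503R3.QCI.gr
  rw [inf_comm]

theorem finrank_gr_bot (j : ℕ) :
    Module.finrank ℂ (H503R3.QCI.gr (⊥ : Ideal (MvPolynomial (Fin 3) ℂ)) j) = 0 := by
  have h : H503R3.QCI.gr (⊥ : Ideal (MvPolynomial (Fin 3) ℂ)) j = ⊥ := by
    rw [eq_bot_iff]
    intro x hx
    have h1 := (H503R3.QCI.mem_gr.mp hx).1
    rw [Ideal.mem_bot] at h1
    rw [Submodule.mem_bot]
    exact h1
  rw [h, finrank_bot]

theorem card : Pool.Agent.Y206.Q.S_CARD := by
  intro K _ w a b F G hw hw0 hF hG hI
  rcases isEmpty_or_nonempty K with hK | hK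
  · -- no points
    rw [Fintype.card_eq_zero]
    by_contra hab
    have hab' : a * b ≠ 0 := fun h => hab h.symm
    have ha : a ≠ 0 := left_ne_zero_of_mul hab'
    have hb : b ≠ 0 := right_ne_zero_of_mul hab'
    have h1 : (1 : MvPolynomial (Fin 3) ℂ) ∈ Ideal.span {F, G} :=
      (hI 1).2 fun k => isEmptyElim k
    obtain ⟨u, v, huv⟩ := Ideal.mem_span_pair.1 h1
    have h2 := congrArg (eval 0) huv
    rw [map_add, map_mul, map_mul, eval_zero_hom F hF ha, eval_zero_hom G hG hb, map_one] at h2
    simp at h2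
  · have hcop := coprime_of_van w F G hI
    have hnotunit : ∀ H : MvPolynomial (Fin 3) ℂ,
        H ∈ Ideal.span ({F, G} : Set (MvPolynomial (Fin 3) ℂ)) → ¬ IsUnit H := by
      intro H hH hu
      have htop := Ideal.eq_top_of_isUnit_mem _ hH hu
      have h1 : (1 : MvPolynomial (Fin 3) ℂ) ∈
          Ideal.span ({F, G} : Set (MvPolynomial (Fin 3) ℂ)) := by
        rw [htop]; trivial
      have := (hI 1).mp h1 (Classical.arbitrary K) 1
      simp at this
    have hF0 : F ≠ 0 := by
      intro h0
      apply hnotunit G (Ideal.subset_span (by simp))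
      exact hcop (by rw [h0]; exact dvd_zero _) (dvd_refl _)
    have hn1 : H503R3.QCI.NZD (⊥ : Ideal (MvPolynomial (Fin 3) ℂ)) F := by
      intro h hh
      rw [Ideal.mem_bot] at hh ⊢
      exact (mul_eq_zero.mp hh).resolve_left hF0
    have hn2 : H503R3.QCI.NZD (Ideal.span {F}) G := by
      intro h hh
      rw [Ideal.mem_span_singleton] at hh ⊢
      exact hcop.dvd_of_dvd_mul_left hh
    have hsp : (⊥ : Ideal (MvPolynomial (Fin 3) ℂ)) ⊔ Ideal.span {F} = Ideal.span {F} := bot_sup_eq _
    have hsp2 : Ideal.span {F} ⊔ Ideal.span {G} = Ideal.span ({F, G} : Set (MvPolynomial (Fin 3) ℂ)) := by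
      rw [← Ideal.span_union]
      rfl
    have hhom : H503R3.QCI.Homog (Ideal.span {F}) := by
      apply H503R3.QCI.homog_span
      intro x hx
      rw [Set.mem_singleton_iff] at hx
      subst hx
      exact ⟨a, hF⟩
    have d1 : ∀ k, Module.finrank ℂ (H503R3.QCI.gr (Ideal.span {F}) (a + k)) =
        (2 + k).choose 2 := by
      intro k
      have h := H503R3.QCI.gr_dim (k := k) H503R3.QCI.homog_bot hF hn1
      rw [hsp, finrank_gr_bot, finrank_gr_bot, add_zero, zero_add] at h
      rw [h]
      exact finrank_forms 2 k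
    set m := Fintype.card K with hm
    have h1 := H503R3.QCI.gr_dim (k := a + m) hhom hG hn2
    rw [hsp2, d1 m, show b + (a + m) = a + (b + m) by ring, d1 (b + m)] at h1
    have f1 : Module.finrank ℂ (homogeneousSubmodule (Fin 3) ℂ (a + m)) =
        (2 + (a + m)).choose 2 := finrank_forms 2 _
    rw [f1] at h1
    have h2 := finrank_evRel w (a + (b + m)) (Ideal.span {F, G}) hI
    rw [evRel_large w hw hw0 (a + (b + m)) (by omega), finrank_bot, zero_add, finrank_gr] at h2
    have f2 : Module.finrank ℂ (homogeneousSubmodule (Fin 3) ℂ (a + (b + m))) =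
        (2 + (a + (b + m))).choose 2 := finrank_forms 2 _
    rw [f2] at h2
    have c1 := two_choose (a + (b + m))
    have c2 := two_choose (b + m)
    have c3 := two_choose (a + m)
    have c4 := two_choose m
    nlinarith

end Pool.Agent.Y328.QG
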